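import Pool.Agent.H10.S6U.Sum
import Pool.Agent.H37.PC.I123

/-!
# Times and frames which are independent of most blocks

`dp p z V b` is the dependence of `z` on `V` given `b`. For contexts which form a chain, up to a
bounded number of values, the sum of the dependences of one variable `z` on the next context is at
most the entropy of `z` (`dp_chain`). For the labels `F.lbr w c M q` of a window the chain is exact
(`lbr_sum`, `lbr_tot`, `lbr_rect`), with any further variable `G` in the condition.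

`CH_T1`: the entropy of the digits of the time. `tm_rect`: the time to `n` digits together with any
variable of few digits. `card_big`: few contexts have a large dependence. `level_choice`: one level out of
many is good for most windows.
-/

set_option autoImplicit false

namespace Pool.PC

open Finset Real
open Pool.Agent.H49.Ent Pool.Agent.H32.Dense Pool.STK Pool.KA Pool.KSAT Pool.K2S Pool.S6U

section abs

variable {Ω A B U : Type} [Fintype Ω] {p : Ω → ℝ}

/-- One step of an approximate chain. -/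
theorem dp_step (hp : ∀ ω, 0 ≤ p ω) (z : Ω → A) (b : Ω → B) (b' : Ω → U) {K : ℝ}
    (h : CH p b b' ≤ K) : dp p z b' b ≤ CH p z b - CH p z b' + K := by
  have h1 : CH p z b' ≤ CH p b b' + CH p z (fun ω => (b ω, b' ω)) := CH_le_add hp z b b'
  have h2 : CH p z (fun ω => (b ω, b' ω)) = CH p z (fun ω => (b' ω, b ω)) :=
    CH_congr hp (fun _ _ _ _ h => (Prod.ext_iff.mp h).1) (fun _ _ _ _ h => (Prod.ext_iff.mp h).1)
      (fun ω ω' _ _ e => Prod.ext (Prod.ext_iff.mp e).2 (Prod.ext_iff.mp e).1)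
      (fun ω ω' _ _ e => Prod.ext (Prod.ext_iff.mp e).2 (Prod.ext_iff.mp e).1)
  unfold dp
  linarith

/-- **(TI)** for an approximate chain: the dependences on the next context. -/
theorem dp_chain {C : ℕ → Type} (hp : ∀ ω, 0 ≤ p ω) (z : Ω → A) (c : (v : ℕ) → Ω → C v)
    {K : ℝ} (n : ℕ) (h : ∀ v, v < n → CH p (c v) (c (v + 1)) ≤ K) :
    ∑ v ∈ range n, dp p z (c (v + 1)) (c v) ≤ CH p z (c 0) - CH p z (c n) + n * K := by
  induction n with
  | zero => simp
  | succ n ih =>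
    rw [sum_range_succ]
    have h1 := ih fun v hv => h v (by omega)
    have h2 := dp_step hp z (c n) (c (n + 1)) (h n (by omega))
    push_cast
    linarith

/-- **(TI)** for an approximate chain: the dependences on blocks, which are functions of the next
context up to a bounded number of values. -/
theorem dp_chain_block {C D : ℕ → Type} (hp : ∀ ω, 0 ≤ p ω) (z : Ω → A)
    (c : (v : ℕ) → Ω → C v) (V : (v : ℕ) → Ω → D v) {K K' : ℝ} (n : ℕ)
    (h : ∀ v, v < n → CH p (c v) (c (v + 1)) ≤ K)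
    (h' : ∀ v, v < n → CH p (V v) (fun ω => (c (v + 1) ω, c v ω)) ≤ K') :
    ∑ v ∈ range n, dp p z (V v) (c v) ≤ CH p z (c 0) + n * (K + K') := by
  have h1 := dp_chain hp z c n h
  have h2 : ∑ v ∈ range n, dp p z (V v) (c v) ≤ ∑ v ∈ range n, (dp p z (c (v + 1)) (c v) + K') :=
    sum_le_sum fun v hv => dp_le_add_right hp (h' v (mem_range.1 hv))
  rw [sum_add_distrib, sum_const, card_range, nsmul_eq_mul] at h2
  have h3 := CH_nonneg hp z (c n)
  nlinarith

/-- **(TI)** with a further variable `G` in the condition. -/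
theorem dp_chain_cond {C D : ℕ → Type} {Γ : Type} (hp : ∀ ω, 0 ≤ p ω) (z : Ω → A)
    (c : (v : ℕ) → Ω → C v) (V : (v : ℕ) → Ω → D v) (G : Ω → Γ) {K K' : ℝ} (n : ℕ)
    (h : ∀ v, v < n → CH p (c v) (c (v + 1)) ≤ K)
    (h' : ∀ v, v < n → CH p (V v) (fun ω => (c (v + 1) ω, c v ω)) ≤ K') :
    ∑ v ∈ range n, dp p z (V v) (fun ω => (c v ω, G ω)) ≤
      CH p z (fun ω => (c 0 ω, G ω)) + n * (K + K') := by
  refine dp_chain_block hp z (fun v ω => (c v ω, G ω)) V n (fun v hv => ?_) (fun v hv => ?_)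
  · have e1 := CH_chain hp (c v) G (fun ω => (c (v + 1) ω, G ω))
    have e2 : CH p G (fun ω => (c (v + 1) ω, G ω)) = 0 :=
      CH_eq_zero hp (fun _ _ _ _ e => (Prod.ext_iff.mp e).2)
    have e3 : CH p (c v) (fun ω => (G ω, (c (v + 1) ω, G ω))) ≤ CH p (c v) (c (v + 1)) :=
      CH_mono_cond hp (fun _ _ _ _ e => (Prod.ext_iff.mp (Prod.ext_iff.mp e).2).1)
    have := h v hv
    linarith
  · refine le_trans (CH_mono_cond hp ?_) (h' v hv)
    intro ω ω' _ _ e
    have e1 := Prod.ext_iff.mp e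
    exact Prod.ext (Prod.ext_iff.mp e1.1).1 (Prod.ext_iff.mp e1.2).1

end abs

/-! ### The labels of a window -/

section lab

variable {m J : ℕ} {F : Fam m J} {p : F.Ω → ℝ} {A Γ : Type} {w : ℕ} {c : Fin m → ℕ}
  {M : F.Ω → Fin m → Fin m → ℝ} {X : ℕ}

/-- The dependence of `z` on the block of `X` digits of the line after the label at `q`. -/
noncomputable def tZ (F : Fam m J) (p : F.Ω → ℝ) (z : F.Ω → A) (G : F.Ω → Γ) (w : ℕ)
    (c : Fin m → ℕ) (M : F.Ω → Fin m → Fin m → ℝ) (X q : ℕ) : ℝ :=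
  dp p z (F.lbr w c M (q + X)) (fun ω => (F.lbr w c M q ω, G ω))

theorem tZ_nonneg (hp : ∀ ω, 0 ≤ p ω) (z : F.Ω → A) (G : F.Ω → Γ) (q : ℕ) :
    0 ≤ tZ F p z G w c M X q := dp_nonneg hp _ _ _

/-- The block in the form of `F.lbr w (c + q) M X`. -/
theorem lbr_add (F : Fam m J) (w : ℕ) (c : Fin m → ℕ) (M : F.Ω → Fin m → Fin m → ℝ) (q X : ℕ) :
    F.lbr w (fun i => c i + q) M X = F.lbr w c M (q + X) := by
  unfold Fam.lbr
  congr 1
  funext i
  ring

/-- **(TM)** on a separated set of velocity scales. -/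
theorem lbr_sum (hp : IsLaw p) (z : F.Ω → A) (G : F.Ω → Γ) {q₀ : ℕ} (S : Finset ℕ)
    (hne : S.Nonempty) (hq : ∀ q ∈ S, q₀ ≤ q) (hsep : ∀ x ∈ S, ∀ y ∈ S, x < y → x + X ≤ y) :
    ∑ q ∈ S, tZ F p z G w c M X q ≤ CH p z (fun ω => (F.lbr w c M q₀ ω, G ω)) := by
  obtain ⟨q, g1, g2, g3⟩ := H23.enum_asc X S hne hsep
  rw [← g3 (fun q => tZ F p z G w c M X q)]
  have key := tele hp S.card (fun _ => z) (fun j => F.lbr w c M (q j + X))
    (fun j ω => (F.lbr w c M (q j) ω, G ω)) (c₁ := 0) (c₂ := 0) le_rfl le_rfl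
    (fun j hj => by
      refine (CH_eq_zero hp.nonneg ?_).le
      intro ω ω' _ _ e
      have e1 := Prod.ext_iff.mp e
      have e3 : F.lbr w c M (q j + X) ω = F.lbr w c M (q j + X) ω' := lbr_mono (g2 j hj) e1.1
      have e4 : F.lbr w c M (q j) ω = F.lbr w c M (q j) ω' := lbr_mono (by omega) e3
      exact Prod.ext e3 (Prod.ext e4 e1.2))
    (fun j _ => by
      refine (CH_eq_zero hp.nonneg ?_).le
      intro ω ω' _ _ e
      exact (Prod.ext_iff.mp e).1)
  have k2 : CH p z (fun ω => (F.lbr w c M (q 0) ω, G ω)) ≤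
      CH p z (fun ω => (F.lbr w c M q₀ ω, G ω)) :=
    CH_mono_cond hp.nonneg (fun ω ω' _ _ e =>
      Prod.ext (lbr_mono (hq _ (g1 0)) (Prod.ext_iff.mp e).1) (Prod.ext_iff.mp e).2)
  refine key.trans ?_
  linarith

/-- **(TM)** on any set of velocity scales. -/
theorem lbr_tot (hp : IsLaw p) (z : F.Ω → A) (G : F.Ω → Γ) (hX : 0 < X) {q₀ : ℕ}
    (S : Finset ℕ) (hq : ∀ q ∈ S, q₀ ≤ q) :
    ∑ q ∈ S, tZ F p z G w c M X q ≤ X * CH p z (fun ω => (F.lbr w c M q₀ ω, G ω)) := by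
  have k1 := H23.sum_class (fun q => tZ F p z G w c M X q) S X hX
    (B := CH p z (fun ω => (F.lbr w c M q₀ ω, G ω))) (C := 0) (CH_nonneg hp.nonneg _ _)
    (fun S' hS' hne hsep => by
      rw [zero_mul, add_zero]
      exact lbr_sum hp z G S' hne (fun q h => hq q (hS' h)) hsep)
  rw [zero_mul, add_zero] at k1
  exact k1

/-- **(TM)** on a rectangle: windows `w ∈ W`, velocity scales `q ∈ Q w`. -/
theorem lbr_rect (hp : IsLaw p) {Az Γz : ℕ → Type} (z : (w : ℕ) → F.Ω → Az w)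
    (G : (w : ℕ) → F.Ω → Γz w) (hX : 0 < X) {q₀ : ℕ} (cc : ℕ → Fin m → ℕ)
    (MM : ℕ → F.Ω → Fin m → Fin m → ℝ) (W : Finset ℕ) (Q : ℕ → Finset ℕ)
    (hq : ∀ w ∈ W, ∀ q ∈ Q w, q₀ ≤ q) {e : ℝ}
    (he : ∀ w ∈ W, CH p (z w) (fun ω => (F.lbr w (cc w) (MM w) q₀ ω, G w ω)) ≤ e) :
    ∑ w ∈ W, ∑ q ∈ Q w, tZ F p (z w) (G w) w (cc w) (MM w) X q ≤ W.card * (X * e) := by
  have key : ∀ w ∈ W, ∑ q ∈ Q w, tZ F p (z w) (G w) w (cc w) (MM w) X q ≤ X * e := by
    intro w hw
    refine (lbr_tot hp (z w) (G w) hX (Q w) (hq w hw)).trans ?_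
    exact mul_le_mul_of_nonneg_left (he w hw) (Nat.cast_nonneg _)
  refine (sum_le_sum key).trans ?_
  rw [sum_const, nsmul_eq_mul]

/-! ### The digits of the time -/

/-- The digits of the time beyond the window. -/
theorem CH_T1 {T : Type} (hp : IsLaw p) {w n : ℕ} (hwn : w ≤ n) (hn : n ≤ J) {Z : F.Ω → T}
    (hZ : Det p Z (F.T1 w)) : CH p (F.T1 n) Z ≤ ((n : ℝ) - w) * Real.log 2 := by
  have h5 : CH p (F.T1 n) Z ≤ CH p (F.T1 n) (F.T1 w) := CH_mono_cond hp.nonneg hZ
  refine h5.trans ?_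
  refine (CH_le_card hp.nonneg hp.sum_one (F.T1 n) _
    (fun v => Finset.Ico (v * 2 ^ (n - w)) ((v + 1) * 2 ^ (n - w))) ?_).trans ?_
  · intro ω _
    have e1 : F.T1 w ω = F.T1 n ω / 2 ^ (n - w) := by
      unfold Fam.T1
      rw [Nat.div_div_eq_div_mul, ← pow_add]
      congr 2
      omega
    rw [Finset.mem_Ico, e1]
    constructor
    · exact Nat.div_mul_le_self _ _
    · rw [← Nat.div_lt_iff_lt_mul (by positivity)]
      exact Nat.lt_succ_self _
  · refine le_of_eq ?_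
    have : ∀ v : ℕ, (Finset.Ico (v * 2 ^ (n - w)) ((v + 1) * 2 ^ (n - w))).card =
        2 ^ (n - w) := by
      intro v
      rw [Nat.card_Ico, add_mul, one_mul, Nat.add_sub_cancel_left]
    simp only [this]
    push_cast
    rw [Ex_const hp.sum_one, Real.log_pow, Nat.cast_sub hwn]

/-- The window is a function of the label. -/
theorem det_T1_lbr {q : ℕ} (G : F.Ω → Γ) :
    Det p (fun ω => (F.lbr w c M q ω, G ω)) (F.T1 w) :=
  fun _ _ _ _ e => (Box.mlb_ext (Prod.ext_iff.mp e).1).1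

/-- **(TM)** on a rectangle for the time to `n` digits and a variable `E` of few digits: windows
`w ∈ W`, `w₀ ≤ w ≤ n`. -/
theorem tm_rect {Ez : ℕ → Type} (hp : IsLaw p) (E : (w : ℕ) → F.Ω → Ez w) {n w₀ q₀ : ℕ}
    (hn : n ≤ J) (hX : 0 < X) (cc : ℕ → Fin m → ℕ) (MM : ℕ → F.Ω → Fin m → Fin m → ℝ)
    (W : Finset ℕ) (hW : ∀ w ∈ W, w₀ ≤ w ∧ w ≤ n) (Q : ℕ → Finset ℕ)
    (hq : ∀ w ∈ W, ∀ q ∈ Q w, q₀ ≤ q) {e : ℝ}
    (he : ∀ w ∈ W, CH p (E w) (F.lbr w (cc w) (MM w) q₀) ≤ e) :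
    ∑ w ∈ W, ∑ q ∈ Q w, dp p (fun ω => (F.T1 n ω, E w ω)) (F.lbr w (fun i => cc w i + q) (MM w) X)
        (F.lbr w (cc w) (MM w) q) ≤ W.card * (X * (((n : ℝ) - w₀) * Real.log 2 + e)) := by
  have hl2 : 0 ≤ Real.log 2 := Real.log_nonneg (by norm_num)
  have k1 := lbr_rect (F := F) (p := p) (X := X) hp (fun w ω => (F.T1 n ω, E w ω))
    (fun _ _ => ()) hX cc MM W Q hq (e := ((n : ℝ) - w₀) * Real.log 2 + e) (by
      intro w hw
      obtain ⟨h1, h2⟩ := hW w hw
      refine (CH_subadd hp.nonneg (F.T1 n) (E w) _).trans ?_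
      have e1 : CH p (F.T1 n) (fun ω => (F.lbr w (cc w) (MM w) q₀ ω, ())) ≤
          ((n : ℝ) - w₀) * Real.log 2 := by
        refine (CH_T1 hp h2 hn (det_T1_lbr _)).trans (mul_le_mul_of_nonneg_right ?_ hl2)
        have : (w₀ : ℝ) ≤ w := by exact_mod_cast h1
        linarith
      have e2 : CH p (E w) (fun ω => (F.lbr w (cc w) (MM w) q₀ ω, ())) ≤ e :=
        (CH_mono_cond hp.nonneg (fun _ _ _ _ h => (Prod.ext_iff.mp h).1)).trans (he w hw)
      exact add_le_add e1 e2)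
  refine le_trans (le_of_eq ?_) k1
  refine sum_congr rfl fun w _ => sum_congr rfl fun q _ => ?_
  unfold tZ
  rw [lbr_add]
  exact dp_congr_cond hp.nonneg (fun _ _ _ _ h => Prod.ext h rfl)
    (fun _ _ _ _ h => (Prod.ext_iff.mp h).1)

end lab

/-! ### Few contexts are bad -/

/-- Few elements have a large value. -/
theorem card_big {ι : Type} (R : Finset ι) (f : ι → ℝ) {s δ : ℝ} (h0 : ∀ x ∈ R, 0 ≤ f x)
    (hs : ∑ x ∈ R, f x ≤ s) (B : Finset ι) (hB : B ⊆ R) (hbig : ∀ x ∈ B, δ ≤ f x) :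
    B.card * δ ≤ s := by
  have h1 : ∑ x ∈ B, δ ≤ ∑ x ∈ B, f x := sum_le_sum hbig
  rw [sum_const, nsmul_eq_mul] at h1
  exact h1.trans ((sum_le_sum_of_subset_of_nonneg hB fun x hx _ => h0 x hx).trans hs)

/-- **The choice of the level.** For every window `w` the levels which are closed at `w` form a
chain, so the sum of their dependences is at most `s`; one of the levels is good in the mean over
the windows. -/
theorem level_choice {K : ℕ} (hK : 0 < K) (W : Finset ℕ) (P : ℕ → ℕ → Prop)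
    [∀ k w, Decidable (P k w)] (f : ℕ → ℕ → ℝ) {s : ℝ}
    (h : ∀ w ∈ W, ∑ k ∈ (range K).filter (fun k => P k w), f k w ≤ s) :
    ∃ k < K, ∑ w ∈ W.filter (fun w => P k w), f k w ≤ W.card * s / K := by
  have h1 : ∑ k ∈ range K, ∑ w ∈ W.filter (fun w => P k w), f k w ≤ W.card * s := by
    have e1 : ∑ k ∈ range K, ∑ w ∈ W.filter (fun w => P k w), f k w =
        ∑ w ∈ W, ∑ k ∈ (range K).filter (fun k => P k w), f k w := by
      have e2 : ∀ k, ∑ w ∈ W.filter (fun w => P k w), f k w =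
          ∑ w ∈ W, if P k w then f k w else 0 := fun k => sum_filter _ _
      have e3 : ∀ w, ∑ k ∈ (range K).filter (fun k => P k w), f k w =
          ∑ k ∈ range K, if P k w then f k w else 0 := fun w => sum_filter _ _
      simp only [e2, e3]
      exact sum_comm
    rw [e1]
    refine (sum_le_sum h).trans ?_
    rw [sum_const, nsmul_eq_mul]
  have hKr : (0 : ℝ) < K := by exact_mod_cast hK
  by_contra hcon
  push Not at hcon
  have h2 : ∑ k ∈ range K, (W.card * s / K : ℝ) <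
      ∑ k ∈ range K, ∑ w ∈ W.filter (fun w => P k w), f k w :=
    sum_lt_sum_of_nonempty ⟨0, mem_range.2 hK⟩ fun k hk => hcon k (mem_range.1 hk)
  rw [sum_const, card_range, nsmul_eq_mul, mul_div_cancel₀ _ hKr.ne'] at h2
  linarith

end Pool.PC
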